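import Pool.Agent.Lib.MP_2e793b_nt.Iface

/-!
MP_2e793b_nt, row BDP: bounded letters are eventually periodic under iteration of the morphism,
with a common period.
-/

set_option autoImplicit false

namespace Pool.Agent.Lib.MP_2e793b_nt.H96

open Finset

/-- a repetition in an orbit gives eventual periodicity -/
lemma iter_per {α : Type} (f : α → α) (x : α) (a p : ℕ) (h : f^[a + p] x = f^[a] x) :
    ∀ n : ℕ, a ≤ n → ∀ t : ℕ, f^[n + t * p] x = f^[n] x := by
  have h1 : ∀ n : ℕ, a ≤ n → f^[n + p] x = f^[n] x := by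
    intro n hn
    obtain ⟨c, rfl⟩ := Nat.exists_eq_add_of_le hn
    have e1 : a + c + p = c + (a + p) := by ring
    have e2 : a + c = c + a := by ring
    rw [e1, e2, Function.iterate_add_apply, h, ← Function.iterate_add_apply]
  intro n hn t
  induction t with
  | zero => simp
  | succ t ih =>
    have e : n + (t + 1) * p = (n + t * p) + p := by ring
    rw [e, h1 _ (le_trans hn (Nat.le_add_right _ _)), ih]

/-- the orbit of a bounded letter has a repetition -/
lemma bdd_rep {k : ℕ} (σ : Fin k → List (Fin k)) (z : Fin k) (hz : Bdd σ z) :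
    ∃ a p : ℕ, 1 ≤ p ∧ (F σ)^[a + p] [z] = (F σ)^[a] [z] := by
  obtain ⟨B, hB⟩ := hz
  have hfin : Set.Finite (Set.range (fun n : ℕ => (F σ)^[n] [z])) := by
    refine (List.finite_length_le (Fin k) B).subset ?_
    rintro _ ⟨n, rfl⟩
    exact hB n
  have hni : ¬ Function.Injective (fun n : ℕ => (F σ)^[n] [z]) := by
    intro hinj
    exact (Set.infinite_range_of_injective hinj) hfin
  rw [Function.Injective] at hni
  push Not at hni
  obtain ⟨m, n, hmn, hne⟩ := hni
  rcases lt_or_gt_of_ne hne with h | h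
  · refine ⟨m, n - m, by omega, ?_⟩
    have e : m + (n - m) = n := by omega
    rw [e]
    exact hmn.symm
  · refine ⟨n, m - n, by omega, ?_⟩
    have e : n + (m - n) = m := by omega
    rw [e]
    exact hmn

/-- BDP -/
theorem bdp : BdpStmt := by
  intro k σ
  classical
  have h : ∀ z : Fin k, ∃ a p : ℕ, 1 ≤ p ∧
      (Bdd σ z → (F σ)^[a + p] [z] = (F σ)^[a] [z]) := by
    intro z
    by_cases hz : Bdd σ z
    · obtain ⟨a, p, hp, e⟩ := bdd_rep σ z hz
      exact ⟨a, p, hp, fun _ => e⟩
    · exact ⟨0, 1, le_refl _, fun hh => absurd hh hz⟩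
  choose a p hp he using h
  have hpos : 1 ≤ ∏ z : Fin k, p z := Finset.one_le_prod' (fun z _ => hp z)
  refine ⟨(∏ z : Fin k, p z) * (∑ z : Fin k, a z + 1), Nat.mul_pos hpos (Nat.succ_pos _), ?_⟩
  intro z hz n hn t
  have ha : a z ≤ n := by
    have h1 : a z ≤ ∑ z : Fin k, a z :=
      Finset.single_le_sum (f := a) (fun i _ => Nat.zero_le _) (Finset.mem_univ z)
    have h2 : ∑ z : Fin k, a z + 1 ≤ (∏ z : Fin k, p z) * (∑ z : Fin k, a z + 1) :=
      Nat.le_mul_of_pos_left _ hpos
    omega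
  obtain ⟨c, hc⟩ := Finset.dvd_prod_of_mem p (Finset.mem_univ z)
  have e : t * ((∏ z : Fin k, p z) * (∑ z : Fin k, a z + 1)) =
      (t * (c * (∑ z : Fin k, a z + 1))) * p z := by
    rw [hc]; ring
  rw [e]
  exact iter_per (F σ) [z] (a z) (p z) (he z hz) n ha _

end Pool.Agent.Lib.MP_2e793b_nt.H96
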